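import Pool.Agent.Lib.MP_9444d7_co.Main

set_option autoImplicit false

/-!
# Simultaneous high-rank minors of size linear in the number of tensors

For every `d ≥ 2` there is a function `C : ℕ → ℕ` such that for every non-empty family `R` of
partitions of `[d]`, every `l ≥ 1`, every field and all tensors `T₁, …, T_s` of order `d` with
`rk_R (a.T) ≥ l` for all `a ≠ 0`, there are sets `X_α` of size at most `s * C l` with
`rk_R ((a.T)(X₁ × ⋯ × X_d)) ≥ l` for all `a ≠ 0`.
-/

namespace Pool.Agent.Results.MP_9444d7_co.LinearMinors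

open Pool.MP_9444d7_co

universe u v

theorem result (d : ℕ) (hd : 2 ≤ d) :
    ∃ C : ℕ → ℕ, ∀ R : Set (Finpartition (Finset.univ : Finset (Fin d))), R.Nonempty →
      ∀ l : ℕ, 1 ≤ l → ∀ (F : Type u) [Field F] (Q : Fin d → Type v) [∀ α, Fintype (Q α)]
        (s : ℕ) (T : Fin s → Tensor F Q),
        (∀ a : Fin s → F, a ≠ 0 → l ≤ rk R (∑ i, a i • T i)) →
        ∃ X : ∀ α, Finset (Q α), (∀ α, (X α).card ≤ s * C l) ∧
          ∀ a : Fin s → F, a ≠ 0 → l ≤ rk R (restrict (∑ i, a i • T i) X) :=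
  ⟨fun l => Pool.Lib.MP_9444d7_co.univBound (d - 1) (l - 1) 1, fun R hR l hl F _ Q _ s T hT =>
    main d (by omega) R hR l hl F Q s T hT⟩

end Pool.Agent.Results.MP_9444d7_co.LinearMinors
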